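import Pool.Agent.X247.K3.Word

set_option autoImplicit false

/-!
# MP_4de4a9_lc, Q1: the hierarchy of the `k`-restricted ET0L languages collapses exactly at `2`

Every ET0L language is generated by an ET0L system in which every table rewrites at most two
letters, and the language of the words `a^n # b^n $ c^n` is not generated by a system in which every
table rewrites at most one letter. So the threshold `ℓ` of the problem is `2`.

Construction for the first part. Every letter `y` gets a tester `t_y`. The tester is rewritten only
by the table `t_y → ε, y → F`, where `F` is a dead letter, and all other tables that rewrite `y`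
contain `t_y → F`. So a word that contains both `y` and `t_y` is dead. Hence a table
`x → w t_y t_z …, t_x → F` rewrites `x` and tests at the same time that none of the letters `y, z, …`
occurs, although it rewrites only two letters. With such tables one simulates a finite control: one
letter `X_q` for the present state `q`, transitions `X_j → X_j' t_a, t_(X_j) → F` with the test that
the letter `a` does not occur, and rewriting of the letter `c` in the state `q` by
`c → w t_(X_p) …` (`p` all states other than `q`), `t_c → F`. The control rewrites the letters of the
given system one after the other and tests afterwards that no old letter is left.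

Second part: in a derivation with the least number of steps of a word longer than a constant no
letter is rewritten twice, because the first of two rewritings of a letter can be left out.
-/

namespace Pool.Agent.Results.MP_4de4a9_lc.ThresholdIsTwo

open Pool.Agent.X247.K3

/-- The family of the languages over the terminal alphabet `T` which are generated by `k`-restricted
ET0L systems. -/
def Fam (T : Type) (k : ℕ) : Set (Set (List T)) :=
  {L | ∃ G : ET0L T, G.Restricted k ∧ G.language = L}

/-- The numbers `l ≥ 1` such that the families for `k` and `k + 1` are the same for all `k ≥ l` (and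
all terminal alphabets). The threshold `ℓ` of the problem is the least of them. -/
def Thresholds : Set ℕ :=
  {l | 1 ≤ l ∧ ∀ k : ℕ, l ≤ k → ∀ T : Type, Fam T k = Fam T (k + 1)}

/-- The threshold is `2`. Moreover, every ET0L language is generated by a 2-restricted ET0L system,
and the language of the words `a^n # b^n $ c^n` is an ET0L language, but is not generated by any
1-restricted ET0L system. -/
theorem result :
    IsLeast Thresholds 2 ∧
    (∀ (T : Type) (G : ET0L T), ∃ G' : ET0L T, G'.Restricted 2 ∧ G'.language = G.language) ∧
    (∃ G : ET0L (Fin 5), G.language = {w | ∃ n, w = W n}) ∧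
    {w | ∃ n, w = W n} ∉ Fam (Fin 5) 1 := by
  have h1 : ∀ (T : Type) (k : ℕ), 2 ≤ k → Fam T k = {L | ∃ G : ET0L T, G.language = L} := by
    intro T k hk
    ext L
    constructor
    · rintro ⟨G, -, h⟩
      exact ⟨G, h⟩
    · rintro ⟨G, h⟩
      obtain ⟨G', h2, h3⟩ := exists_two G
      exact ⟨G', fun t => (h2 t).trans hk, h3.trans h⟩
  have h2 : 2 ∈ Thresholds :=
    ⟨by norm_num, fun k hk T => (h1 T k hk).trans (h1 T (k + 1) (by omega)).symm⟩
  have h3 : {w | ∃ n, w = W n} ∉ Fam (Fin 5) 1 := by
    rintro ⟨G, h4, h5⟩
    exact not_one G h4 h5
  refine ⟨⟨h2, ?_⟩, fun _ G => exists_two G, ⟨GW, language_GW⟩, h3⟩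
  intro l hl
  by_contra hlt
  have hl1 : l = 1 := by
    have := hl.1
    omega
  have h6 := hl.2 1 (by omega) (Fin 5)
  apply h3
  rw [h6, h1 (Fin 5) (1 + 1) le_rfl]
  exact ⟨GW, language_GW⟩

end Pool.Agent.Results.MP_4de4a9_lc.ThresholdIsTwo
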